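import Pool.Agent.Lib.MP_b9430d_co.Main

open Complex Set Filter Topology Metric

namespace Pool.Agent.Results.MP_b9430d_co.NoBaireSteinhaus

open Pool.MPb9430d

/-- The motion carrying `pos p g` to the lattice point `p`. -/
noncomputable def motion (g : ℝ × ℂ) : ℂ ≃ᵢ ℂ :=
  IsometryEquiv.mk' (fun z => exp (-(g.1 : ℂ) * I) * (z - g.2))
    (fun z => g.2 + exp ((g.1 : ℂ) * I) * z)
    (fun z => by
      have h : -(g.1 : ℂ) * I + (g.1 : ℂ) * I = 0 := by ring
      have h2 : g.2 + exp ((g.1 : ℂ) * I) * z - g.2 = exp ((g.1 : ℂ) * I) * z := by ring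
      rw [h2, ← mul_assoc, ← Complex.exp_add, h, Complex.exp_zero, one_mul])
    (by
      apply Isometry.of_dist_eq
      intro x y
      rw [dist_eq_norm, dist_eq_norm]
      have h2 : exp (-(g.1 : ℂ) * I) * (x - g.2) - exp (-(g.1 : ℂ) * I) * (y - g.2) =
        exp (((-g.1 : ℝ) : ℂ) * I) * (x - y) := by push_cast; ring
      rw [h2, norm_exp_mul])

theorem motion_pos (g : ℝ × ℂ) (p : ℤ × ℤ) : motion g (pos p g) = lat p := by
  have h : -(g.1 : ℂ) * I + (g.1 : ℂ) * I = 0 := by ring
  change exp (-(g.1 : ℂ) * I) * (g.2 + exp ((g.1 : ℂ) * I) * lat p - g.2) = lat p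
  have h2 : g.2 + exp ((g.1 : ℂ) * I) * lat p - g.2 = exp ((g.1 : ℂ) * I) * lat p := by ring
  rw [h2, ← mul_assoc, ← Complex.exp_add, h, Complex.exp_zero, one_mul]

/-- For every `n ≥ 1` and every plane set `E` with the Baire property (in particular every Borel
set) some congruent copy of `E` contains a number of integer points different from `n`. -/
theorem result (n : ℕ) (hn : 1 ≤ n) (E : Set (EuclideanSpace ℝ (Fin 2)))
    (hE : BaireMeasurableSet E) :
    ∃ g : EuclideanSpace ℝ (Fin 2) ≃ᵢ EuclideanSpace ℝ (Fin 2),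
      (g '' E ∩ {x | ∀ i, ∃ m : ℤ, x i = m}).encard ≠ n := by
  by_contra hcon
  push Not at hcon
  set L := Complex.orthonormalBasisOneI.repr with hL
  have hL0 : ∀ z : ℂ, L z 0 = z.re := fun z => by
    rw [hL, Complex.orthonormalBasisOneI_repr_apply]; rfl
  have hL1 : ∀ z : ℂ, L z 1 = z.im := fun z => by
    rw [hL, Complex.orthonormalBasisOneI_repr_apply]; rfl
  have hE' : BaireMeasurableSet (L ⁻¹' E) :=
    hE.preimage L.continuous L.toHomeomorph.isOpenMap
  apply not_generic hE' hn
  refine Eventually.of_forall (fun g => ?_)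
  let G : EuclideanSpace ℝ (Fin 2) ≃ᵢ EuclideanSpace ℝ (Fin 2) :=
    L.symm.toIsometryEquiv.trans ((motion g).trans L.toIsometryEquiv)
  have hset : G '' E ∩ {x | ∀ i, ∃ m : ℤ, x i = m} = (fun p => L (lat p)) '' hits (L ⁻¹' E) g := by
    ext y
    constructor
    · rintro ⟨⟨x, hx, rfl⟩, hy⟩
      obtain ⟨a, ha⟩ := hy 0
      obtain ⟨b, hb⟩ := hy 1
      have hGx : G x = L (motion g (L.symm x)) := rfl
      rw [hGx, hL0] at ha
      rw [hGx, hL1] at hb
      have hm : motion g (L.symm x) = lat (a, b) := by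
        apply Complex.ext
        · rw [ha, lat_re]
        · rw [hb, lat_im]
      have hpos : pos (a, b) g = L.symm x := by
        apply (motion g).injective
        rw [motion_pos, hm]
      refine ⟨(a, b), ?_, ?_⟩
      · change L (pos (a, b) g) ∈ E
        rw [hpos, LinearIsometryEquiv.apply_symm_apply]
        exact hx
      · rw [hGx, hm]
    · rintro ⟨p, hp, rfl⟩
      have hp' : L (pos p g) ∈ E := hp
      refine ⟨⟨L (pos p g), hp', ?_⟩, ?_⟩
      · change L (motion g (L.symm (L (pos p g)))) = L (lat p)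
        rw [LinearIsometryEquiv.symm_apply_apply, motion_pos]
      · intro i
        fin_cases i
        · exact ⟨p.1, by rw [← lat_re]; exact hL0 _⟩
        · exact ⟨p.2, by rw [← lat_im]; exact hL1 _⟩
  have hinj : Function.Injective (fun p => L (lat p)) := L.injective.comp lat_injective
  rw [← hinj.encard_image, ← hset]
  exact hcon G

end Pool.Agent.Results.MP_b9430d_co.NoBaireSteinhaus
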