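import Pool.Agent.Lib.MP_b9430d_co.Bounded
import Pool.Agent.Lib.MP_b9430d_co.SR.Efin

/-!
# There is no measurable Steinhaus set

For every `n ≥ 1` and every Lebesgue measurable set `E` in the Euclidean plane there is an isometry
`g` of the plane such that the number of points of `g(E)` with integer coordinates is not `n`.
-/

open Complex Set Filter Topology Metric MeasureTheory
open scoped ENNReal

namespace Pool.Agent.Results.MP_b9430d_co.NoMeasurableSteinhaus

open Pool.MPb9430d Pool.MPb9430d.Rough Pool.MPb9430d.Frac Pool.MPb9430d.Mom Pool.Agent.Lib.SR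

/-- The motion carrying `pos p g` to the lattice point `p`. -/
noncomputable def motion (g : ℝ × ℂ) : ℂ ≃ᵢ ℂ :=
  IsometryEquiv.mk' (fun z => exp (-(g.1 : ℂ) * I) * (z - g.2))
    (fun z => g.2 + exp ((g.1 : ℂ) * I) * z)
    (fun z => by
      have h : -(g.1 : ℂ) * I + (g.1 : ℂ) * I = 0 := by ring
      have h2 : g.2 + exp ((g.1 : ℂ) * I) * z - g.2 = exp ((g.1 : ℂ) * I) * z := by ring
      rw [h2, ← mul_assoc, ← Complex.exp_add, h, Complex.exp_zero, one_mul])
    (by
      apply Isometry.of_dist_eq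
      intro x y
      rw [dist_eq_norm, dist_eq_norm]
      have h2 : exp (-(g.1 : ℂ) * I) * (x - g.2) - exp (-(g.1 : ℂ) * I) * (y - g.2) =
        exp (((-g.1 : ℝ) : ℂ) * I) * (x - y) := by push_cast; ring
      rw [h2, norm_exp_mul])

theorem motion_pos (g : ℝ × ℂ) (p : ℤ × ℤ) : motion g (pos p g) = lat p := by
  have h : -(g.1 : ℂ) * I + (g.1 : ℂ) * I = 0 := by ring
  change exp (-(g.1 : ℂ) * I) * (g.2 + exp ((g.1 : ℂ) * I) * lat p - g.2) = lat p
  have h2 : g.2 + exp ((g.1 : ℂ) * I) * lat p - g.2 = exp ((g.1 : ℂ) * I) * lat p := by ring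
  rw [h2, ← mul_assoc, ← Complex.exp_add, h, Complex.exp_zero, one_mul]

theorem encard_hits (E : Set (EuclideanSpace ℝ (Fin 2))) (n : ℕ)
    (hS : ∀ g : EuclideanSpace ℝ (Fin 2) ≃ᵢ EuclideanSpace ℝ (Fin 2),
      (g '' E ∩ {x | ∀ i, ∃ m : ℤ, x i = m}).encard = n) (g : ℝ × ℂ) :
    (hits (Complex.orthonormalBasisOneI.repr ⁻¹' E) g).encard = n := by
  set L := Complex.orthonormalBasisOneI.repr with hL
  have hL0 : ∀ z : ℂ, L z 0 = z.re := fun z => by
    rw [hL, Complex.orthonormalBasisOneI_repr_apply]; rfl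
  have hL1 : ∀ z : ℂ, L z 1 = z.im := fun z => by
    rw [hL, Complex.orthonormalBasisOneI_repr_apply]; rfl
  let G : EuclideanSpace ℝ (Fin 2) ≃ᵢ EuclideanSpace ℝ (Fin 2) :=
    L.symm.toIsometryEquiv.trans ((motion g).trans L.toIsometryEquiv)
  have hset : G '' E ∩ {x | ∀ i, ∃ m : ℤ, x i = m} = (fun p => L (lat p)) '' hits (L ⁻¹' E) g := by
    ext y
    constructor
    · rintro ⟨⟨x, hx, rfl⟩, hy⟩
      obtain ⟨a, ha⟩ := hy 0
      obtain ⟨b, hb⟩ := hy 1
      have hGx : G x = L (motion g (L.symm x)) := rfl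
      rw [hGx, hL0] at ha
      rw [hGx, hL1] at hb
      have hm : motion g (L.symm x) = lat (a, b) := by
        apply Complex.ext
        · rw [ha, lat_re]
        · rw [hb, lat_im]
      have hpos : pos (a, b) g = L.symm x := by
        apply (motion g).injective
        rw [motion_pos, hm]
      refine ⟨(a, b), ?_, ?_⟩
      · change L (pos (a, b) g) ∈ E
        rw [hpos, LinearIsometryEquiv.apply_symm_apply]
        exact hx
      · rw [hGx, hm]
    · rintro ⟨p, hp, rfl⟩
      have hp' : L (pos p g) ∈ E := hp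
      refine ⟨⟨L (pos p g), hp', ?_⟩, ?_⟩
      · change L (motion g (L.symm (L (pos p g)))) = L (lat p)
        rw [LinearIsometryEquiv.symm_apply_apply, motion_pos]
      · intro i
        fin_cases i
        · exact ⟨p.1, by rw [← lat_re]; exact hL0 _⟩
        · exact ⟨p.2, by rw [← lat_im]; exact hL1 _⟩
  have hinj : Function.Injective (fun p => L (lat p)) := L.injective.comp lat_injective
  rw [← hinj.encard_image, ← hset]
  exact hS G

/-- A set that agrees almost everywhere with a Steinhaus set. -/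
theorem tile_of_ae {E E₀ : Set ℂ} {n : ℕ} (h : ∀ g : ℝ × ℂ, (hits E g).encard = n)
    (hE : E₀ =ᵐ[volume] E) : Tile E₀ n := by
  intro θ
  have h1 : ∀ᵐ x : ℂ, ∀ p : ℤ × ℤ, (x + rot θ * lat p ∈ E₀ ↔ x + rot θ * lat p ∈ E) := by
    rw [ae_all_iff]
    intro p
    have h2 := (measurePreserving_add_right (volume : Measure ℂ)
      (rot θ * lat p)).quasiMeasurePreserving.ae hE
    filter_upwards [h2] with x hx
    exact Iff.of_eq hx
  filter_upwards [h1] with x hx
  have h3 : {p : ℤ × ℤ | x + rot θ * lat p ∈ E₀} = hits E (θ, x) := by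
    ext p
    exact hx p
  rw [h3]
  exact h (θ, x)

/-- **No Lebesgue measurable subset of the plane is an `n`-Steinhaus set**, for any `n ≥ 1`: some
isometry `g` of the plane makes the number of lattice points of `g(E)` different from `n`. -/
theorem result (n : ℕ) (hn : 1 ≤ n) (E : Set (EuclideanSpace ℝ (Fin 2)))
    (hE : NullMeasurableSet E volume) :
    ∃ g : EuclideanSpace ℝ (Fin 2) ≃ᵢ EuclideanSpace ℝ (Fin 2),
      (g '' E ∩ {x | ∀ i, ∃ m : ℤ, x i = m}).encard ≠ n := by
  by_contra hcon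
  push Not at hcon
  have hh := encard_hits E n hcon
  set L := Complex.orthonormalBasisOneI.repr with hL
  have hmp : MeasurePreserving L volume volume := L.measurePreserving
  have hE' : NullMeasurableSet (L ⁻¹' E) (volume : Measure ℂ) :=
    hE.preimage hmp.quasiMeasurePreserving
  obtain ⟨E₀, hE₀, hae⟩ := hE'
  exact no_tile hn hE₀ (tile_of_ae hh hae.symm)

end Pool.Agent.Results.MP_b9430d_co.NoMeasurableSteinhaus
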